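import Mathlib

set_option autoImplicit false

namespace Pool.Agent.Results.MP_3f481b_al.EveryCompactAbelian

open Matrix

universe u

/-- `KO G`: the intersection of the kernels of all ordinary representations of `G`, that is, of all
continuous homomorphisms `G → GL_n(ℂ)`, `n ≥ 1`. -/
def KO (G : Type u) [Group G] [TopologicalSpace G] : Subgroup G where
  carrier := {g | ∀ n : ℕ, 1 ≤ n → ∀ ρ : G →* GL (Fin n) ℂ, Continuous ρ → ρ g = 1}
  mul_mem' := by
    intro a b ha hb n hn ρ hρ
    rw [map_mul, ha n hn ρ hρ, hb n hn ρ hρ, one_mul]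
  one_mem' := by
    intro n _ ρ _
    exact map_one ρ
  inv_mem' := by
    intro a ha n hn ρ hρ
    rw [map_inv, ha n hn ρ hρ, inv_one]

/-- A free abelian group. -/
abbrev V (A : Type u) : Type u := (A × ℕ) →₀ ℤ

/-- The underlying set of the Heisenberg-type group. -/
@[ext] structure Heis (A : Type u) : Type u where
  /-- central coordinate -/
  a : A
  /-- first coordinate -/
  v : V A
  /-- second coordinate -/
  w : V A

section construction

variable (A : Type u) [CommGroup A]

/-- The bilinear pairing. -/
noncomputable def pairing (v w : V A) : A := v.prod fun i n => i.1 ^ (n * w i)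

lemma pairing_add_left (v v' w : V A) :
    pairing A (v + v') w = pairing A v w * pairing A v' w := by
  unfold pairing
  refine Finsupp.prod_add_index' (h := fun i n => i.1 ^ (n * w i)) ?_ ?_
  · intro i
    simp
  · intro i a b
    rw [add_mul, _root_.zpow_add]

lemma pairing_add_right (v w w' : V A) :
    pairing A v (w + w') = pairing A v w * pairing A v w' := by
  unfold pairing
  rw [← Finsupp.prod_mul]
  apply Finsupp.prod_congr
  intro i _
  rw [← _root_.zpow_add, ← mul_add]
  rfl

lemma pairing_zero_left (w : V A) : pairing A 0 w = 1 := by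
  have h := pairing_add_left A 0 0 w
  rw [add_zero] at h
  exact (left_eq_mul.mp h)

lemma pairing_zero_right (v : V A) : pairing A v 0 = 1 := by
  have h := pairing_add_right A v 0 0
  rw [add_zero] at h
  exact (left_eq_mul.mp h)

lemma pairing_neg_left (v w : V A) : pairing A (-v) w = (pairing A v w)⁻¹ := by
  have h := pairing_add_left A v (-v) w
  rw [add_neg_cancel, pairing_zero_left] at h
  exact (inv_eq_of_mul_eq_one_right h.symm).symm

noncomputable instance : Group (Heis A) where
  mul x y := ⟨x.a * y.a * pairing A x.v y.w, x.v + y.v, x.w + y.w⟩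
  one := ⟨1, 0, 0⟩
  inv x := ⟨x.a⁻¹ * pairing A x.v x.w, -x.v, -x.w⟩
  mul_assoc x y z := by
    refine Heis.ext ?_ (add_assoc _ _ _) (add_assoc _ _ _)
    change x.a * y.a * pairing A x.v y.w * z.a * pairing A (x.v + y.v) z.w =
        x.a * (y.a * z.a * pairing A y.v z.w) * pairing A x.v (y.w + z.w)
    rw [pairing_add_left, pairing_add_right]
    simp only [mul_assoc, mul_comm, mul_left_comm]
  one_mul x := by
    refine Heis.ext ?_ (zero_add _) (zero_add _)
    change 1 * x.a * pairing A 0 x.w = x.a
    rw [pairing_zero_left, mul_one, one_mul]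
  mul_one x := by
    refine Heis.ext ?_ (add_zero _) (add_zero _)
    change x.a * 1 * pairing A x.v 0 = x.a
    rw [pairing_zero_right, mul_one, mul_one]
  inv_mul_cancel x := by
    refine Heis.ext ?_ (neg_add_cancel _) (neg_add_cancel _)
    change x.a⁻¹ * pairing A x.v x.w * x.a * pairing A (-x.v) x.w = 1
    rw [pairing_neg_left, mul_right_comm x.a⁻¹, inv_mul_cancel, one_mul, mul_inv_cancel]

lemma mul_def (x y : Heis A) :
    x * y = ⟨x.a * y.a * pairing A x.v y.w, x.v + y.v, x.w + y.w⟩ := rfl

lemma one_def : (1 : Heis A) = ⟨1, 0, 0⟩ := rfl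

lemma inv_def (x : Heis A) : x⁻¹ = ⟨x.a⁻¹ * pairing A x.v x.w, -x.v, -x.w⟩ := rfl

end construction

section topology

variable (A : Type u)

/-- The discrete topology on `V A`. -/
@[reducible] def topV : TopologicalSpace (V A) := ⊥

attribute [local instance] topV

lemma discV : DiscreteTopology (V A) := ⟨rfl⟩

attribute [local instance] discV

variable [TopologicalSpace A]

/-- The topology of the Heisenberg-type group: `A` times two discrete groups. -/
instance : TopologicalSpace (Heis A) :=
  TopologicalSpace.induced (fun x : Heis A => (x.a, x.v, x.w)) inferInstance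

/-- The defining homeomorphism. -/
def homeo : Heis A ≃ₜ A × V A × V A where
  toFun x := (x.a, x.v, x.w)
  invFun x := ⟨x.1, x.2.1, x.2.2⟩
  left_inv _ := rfl
  right_inv _ := rfl
  continuous_toFun := continuous_induced_dom
  continuous_invFun := continuous_induced_rng.mpr continuous_id

instance [T2Space A] : T2Space (Heis A) := (homeo A).symm.t2Space

instance [LocallyCompactSpace A] : LocallyCompactSpace (Heis A) :=
  (homeo A).isClosedEmbedding.locallyCompactSpace

lemma continuous_a : Continuous (fun x : Heis A => x.a) :=
  continuous_fst.comp (homeo A).continuous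

lemma continuous_v : Continuous (fun x : Heis A => x.v) :=
  (continuous_fst.comp continuous_snd).comp (homeo A).continuous

lemma continuous_w : Continuous (fun x : Heis A => x.w) :=
  (continuous_snd.comp continuous_snd).comp (homeo A).continuous

lemma continuous_mk {X : Type*} [TopologicalSpace X] {f : X → A} {g h : X → V A}
    (hf : Continuous f) (hg : Continuous g) (hh : Continuous h) :
    Continuous (fun x => (⟨f x, g x, h x⟩ : Heis A)) :=
  (homeo A).symm.continuous.comp (hf.prodMk (hg.prodMk hh))

instance [CommGroup A] [IsTopologicalGroup A] : IsTopologicalGroup (Heis A) where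
  continuous_mul := by
    have h7 : Continuous (fun p : V A × V A => pairing A p.1 p.2) :=
      continuous_of_discreteTopology
    have h8 : Continuous (fun p : V A × V A => p.1 + p.2) := continuous_of_discreteTopology
    have v1 := (continuous_v A).comp (continuous_fst (X := Heis A) (Y := Heis A))
    have v2 := (continuous_v A).comp (continuous_snd (X := Heis A) (Y := Heis A))
    have w1 := (continuous_w A).comp (continuous_fst (X := Heis A) (Y := Heis A))
    have w2 := (continuous_w A).comp (continuous_snd (X := Heis A) (Y := Heis A))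
    have a1 := (continuous_a A).comp (continuous_fst (X := Heis A) (Y := Heis A))
    have a2 := (continuous_a A).comp (continuous_snd (X := Heis A) (Y := Heis A))
    exact continuous_mk A ((a1.mul a2).mul (h7.comp (v1.prodMk w2))) (h8.comp (v1.prodMk v2))
      (h8.comp (w1.prodMk w2))
  continuous_inv := by
    have h7 : Continuous (fun p : V A × V A => pairing A p.1 p.2) :=
      continuous_of_discreteTopology
    have h8 : Continuous (fun p : V A => -p) := continuous_of_discreteTopology
    exact continuous_mk A ((continuous_a A).inv.mul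
      (h7.comp ((continuous_v A).prodMk (continuous_w A)))) (h8.comp (continuous_v A))
      (h8.comp (continuous_w A))

end topology

section kernel

variable {A : Type u} [CommGroup A]

/-- Basis elements. -/
noncomputable def e (i : A × ℕ) : V A := Finsupp.single i (1 : ℤ)

lemma pairing_e (i : A × ℕ) : pairing A (e i) (e i) = i.1 := by
  unfold pairing e
  rw [Finsupp.prod_single_index]
  · rw [one_mul, Finsupp.single_eq_same, zpow_one]
  · simp

lemma pairing_e_ne {i j : A × ℕ} (h : i ≠ j) : pairing A (e i) (e j) = 1 := by
  classical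
  unfold pairing e
  rw [Finsupp.prod_single_index]
  · rw [one_mul, Finsupp.single_apply, if_neg (Ne.symm h), zpow_zero]
  · simp

/-- Every finite-dimensional representation of the abstract group kills the central elements. -/
lemma rep_central {n : ℕ} (ρ : Heis A →* GL (Fin n) ℂ) (a : A) : ρ ⟨a, 0, 0⟩ = 1 := by
  classical
  let x : ℕ → Heis A := fun k => ⟨1, e (a, k), 0⟩
  let y : ℕ → Heis A := fun k => ⟨1, 0, e (a, k)⟩
  let c : Heis A := ⟨a, 0, 0⟩
  have hxy : ∀ j k, x k * y j = (if k = j then c else 1) * (y j * x k) := by
    intro j k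
    by_cases h : k = j
    · subst h
      rw [if_pos rfl]
      simp only [x, y, c, mul_def]
      rw [pairing_e]
      simp [pairing_zero_left, pairing_zero_right]
    · rw [if_neg h, one_mul]
      simp only [x, y, mul_def]
      rw [pairing_e_ne (by simp [h])]
      simp [pairing_zero_left]
  let X : ℕ → Matrix (Fin n) (Fin n) ℂ := fun k => (ρ (x k) : Matrix (Fin n) (Fin n) ℂ)
  have hdep : ¬ LinearIndependent ℂ X := by
    intro h
    have hfin : Finite ℕ := h.finite
    exact not_finite ℕ
  rw [not_linearIndependent_iff] at hdep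
  obtain ⟨s, g, hsum, j, hj, hgj⟩ := hdep
  set C : Matrix (Fin n) (Fin n) ℂ := (ρ c : Matrix (Fin n) (Fin n) ℂ) with hC
  set Y : Matrix (Fin n) (Fin n) ℂ := (ρ (y j) : Matrix (Fin n) (Fin n) ℂ) with hY
  have hXY : ∀ k, X k * Y = (if k = j then C else 1) * (Y * X k) := by
    intro k
    have h1 := congrArg (fun z => ((ρ z : GL (Fin n) ℂ) : Matrix (Fin n) (Fin n) ℂ)) (hxy j k)
    simp only [map_mul, Units.val_mul] at h1
    rw [h1]
    split_ifs <;> simp [C, X, Y]
  -- multiply the dependence relation on the right and on the left by `Y`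
  have h1 : ∑ k ∈ s, g k • (X k * Y) = 0 := by
    have := congrArg (fun M => M * Y) hsum
    simp only [Finset.sum_mul, zero_mul, smul_mul_assoc] at this
    exact this
  have h2 : ∑ k ∈ s, g k • (Y * X k) = 0 := by
    have := congrArg (fun M => Y * M) hsum
    simp only [Finset.mul_sum, mul_zero, mul_smul_comm] at this
    exact this
  have h3 : ∑ k ∈ s, (g k • (X k * Y) - g k • (Y * X k)) = g j • ((C - 1) * (Y * X j)) := by
    rw [Finset.sum_eq_single j]
    · rw [hXY j, if_pos rfl, sub_mul, one_mul, smul_sub]
    · intro k _ hk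
      rw [hXY k, if_neg hk, one_mul, sub_self]
    · intro h
      exact absurd hj h
  rw [Finset.sum_sub_distrib, h1, h2, sub_zero] at h3
  have h4 : (C - 1) * (Y * X j) = 0 := by
    rcases smul_eq_zero.mp h3.symm with h | h
    · exact absurd h hgj
    · exact h
  have h5 : C - 1 = 0 := by
    have hu : IsUnit (Y * X j) := (ρ (y j) * ρ (x j)).isUnit
    exact (hu.mul_left_eq_zero).mp h4
  have h6 : C = 1 := sub_eq_zero.mp h5
  apply Units.ext
  rw [Units.val_one]
  exact h6

/-- The matrix `2` in `GL_1(ℂ)`. -/
noncomputable def two : GL (Fin 1) ℂ :=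
  Units.map (Matrix.scalar (Fin 1) : ℂ →+* Matrix (Fin 1) (Fin 1) ℂ).toMonoidHom
    (Units.mk0 2 two_ne_zero)

lemma det_two : Matrix.GeneralLinearGroup.det two = Units.mk0 (2 : ℂ) two_ne_zero := by
  apply Units.ext
  simp [two, Matrix.GeneralLinearGroup.det]

lemma two_zpow (k : ℤ) (h : two ^ k = 1) : k = 0 := by
  have h1 := congrArg Matrix.GeneralLinearGroup.det h
  rw [map_zpow, det_two, map_one] at h1
  have h2 : (2 : ℂ) ^ k = 1 := by
    have := congrArg (fun z : ℂˣ => (z : ℂ)) h1
    simpa using this
  have h3 : ((2 : ℝ) ^ k) = 1 := by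
    have := congrArg (fun z : ℂ => ‖z‖) h2
    simpa using this
  by_contra hk
  rcases lt_or_gt_of_ne hk with h | h
  · have := zpow_lt_one_of_neg₀ (one_lt_two : (1 : ℝ) < 2) h
    linarith
  · have := one_lt_zpow₀ (one_lt_two : (1 : ℝ) < 2) h
    linarith

/-- Evaluation characters. -/
noncomputable def chrV (i : A × ℕ) : Heis A →* GL (Fin 1) ℂ where
  toFun x := two ^ (x.v i)
  map_one' := by
    change two ^ ((0 : V A) i) = 1
    simp
  map_mul' x y := by
    rw [← _root_.zpow_add]
    rfl

/-- Evaluation characters. -/
noncomputable def chrW (i : A × ℕ) : Heis A →* GL (Fin 1) ℂ where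
  toFun x := two ^ (x.w i)
  map_one' := by
    change two ^ ((0 : V A) i) = 1
    simp
  map_mul' x y := by
    rw [← _root_.zpow_add]
    rfl

lemma chrV_continuous [TopologicalSpace A] (i : A × ℕ) : Continuous (chrV (A := A) i) := by
  let _ := topV A
  have _ := discV A
  have h2 : Continuous (fun v : V A => two ^ (v i)) := continuous_of_discreteTopology
  exact h2.comp (continuous_v A)

lemma chrW_continuous [TopologicalSpace A] (i : A × ℕ) : Continuous (chrW (A := A) i) := by
  let _ := topV A
  have _ := discV A
  have h2 : Continuous (fun v : V A => two ^ (v i)) := continuous_of_discreteTopology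
  exact h2.comp (continuous_w A)

end kernel

/-- Every compact (Hausdorff) abelian group `A` is topologically isomorphic to `KO G` for some
locally compact Hausdorff group `G`. -/
theorem result (A : Type u) [CommGroup A] [TopologicalSpace A] [IsTopologicalGroup A]
    [CompactSpace A] [T2Space A] :
    ∃ (G : Type u) (_ : Group G) (_ : TopologicalSpace G) (_ : IsTopologicalGroup G)
      (_ : LocallyCompactSpace G) (_ : T2Space G), Nonempty (A ≃ₜ* KO G) := by
  refine ⟨Heis A, inferInstance, inferInstance, inferInstance, inferInstance, inferInstance, ?_⟩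
  have hmem : ∀ a : A, (⟨a, 0, 0⟩ : Heis A) ∈ KO (Heis A) := by
    intro a n _ ρ _
    exact rep_central ρ a
  have hker : ∀ x : Heis A, x ∈ KO (Heis A) → x.v = 0 ∧ x.w = 0 := by
    intro x hx
    constructor
    · refine Finsupp.ext fun i => ?_
      exact two_zpow _ (hx 1 le_rfl (chrV i) (chrV_continuous i))
    · refine Finsupp.ext fun i => ?_
      exact two_zpow _ (hx 1 le_rfl (chrW i) (chrW_continuous i))
  refine ⟨{ toFun := fun a => ⟨⟨a, 0, 0⟩, hmem a⟩
            invFun := fun x => x.1.a
            left_inv := fun a => rfl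
            right_inv := ?_
            map_mul' := ?_
            continuous_toFun := ?_
            continuous_invFun := ?_ }⟩
  · rintro ⟨x, hx⟩
    obtain ⟨h1, h2⟩ := hker x hx
    apply Subtype.ext
    exact Heis.ext rfl h1.symm h2.symm
  · intro a b
    apply Subtype.ext
    change (⟨a * b, 0, 0⟩ : Heis A) = ⟨a, 0, 0⟩ * ⟨b, 0, 0⟩
    rw [mul_def]
    simp [pairing_zero_left]
  · apply Continuous.subtype_mk
    let _ := topV A
    exact continuous_mk A continuous_id continuous_const continuous_const
  · exact (continuous_a A).comp continuous_subtype_val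

end Pool.Agent.Results.MP_3f481b_al.EveryCompactAbelian
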